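import Pool.Agent.Q107.Bn.Merge

/-!
# `i_bn(G) ≤ i_h(G)` for every finite graph

The definitions `ecc`, `IsBroadcast`, `Hears`, `IsBnIndep`, `IsHearingIndep`, `IsMaximalBn`,
`IsMaximalHearing`, `iBn` and `iH` are in `Pool.Agent.Q107.Bn.Defs`.
-/

set_option autoImplicit false

namespace Pool.Agent.Results.MP_2a7bed_co.BnLeH

open Q107.Bn

/-- Every finite graph `G` satisfies `i_bn(G) ≤ i_h(G)`; so no graph has `i_bn(G) > i_h(G)`. -/
theorem result (V : Type) [Fintype V] (G : SimpleGraph V) : iBn G ≤ iH G :=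
  iBn_le_iH G

end Pool.Agent.Results.MP_2a7bed_co.BnLeH
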